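import Mathlib

set_option autoImplicit false

namespace Pool.Agent.Results.MP_55095a_co.No

open MvPolynomial

/-- `R = ℂ[x_{ij}]`, `1 ≤ i ≤ ℓ`, `1 ≤ j ≤ n`. -/
abbrev Rng (l n : ℕ) : Type := MvPolynomial (Fin l × Fin n) ℂ

/-- `R_d`: polynomials all of whose monomials have multidegree `d` (`x_{ij}` has multidegree
the `i`-th unit vector). -/
noncomputable def Rd (l n : ℕ) (d : Fin l →₀ ℕ) : Submodule ℂ (Rng l n) :=
  weightedHomogeneousSubmodule ℂ (fun v : Fin l × Fin n => (Finsupp.single v.1 1 : Fin l →₀ ℕ)) d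

/-- The diagonal action `σ · x_{ij} = x_{i σ(j)}`. -/
noncomputable def act {l n : ℕ} (σ : Equiv.Perm (Fin n)) (f : Rng l n) : Rng l n :=
  rename (fun v : Fin l × Fin n => (v.1, σ v.2)) f

/-- The generalized polarization operator `E^{(p)}_{i,k} = ∑_j x_{ij} ∂_{kj}^p`. -/
noncomputable def polar {l n : ℕ} (i k : Fin l) (p : ℕ) (g : Rng l n) : Rng l n :=
  ∑ j : Fin n, X (i, j) * (fun q : Rng l n => pderiv (k, j) q)^[p] g

/-- The subspaces containing `f` and its orbit, closed under all partial derivatives and all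
polarization operators. -/
def Admissible {l n : ℕ} (f : Rng l n) (W : Submodule ℂ (Rng l n)) : Prop :=
  f ∈ W ∧ (∀ σ : Equiv.Perm (Fin n), act σ f ∈ W) ∧ (∀ v, ∀ g ∈ W, pderiv v g ∈ W) ∧
    ∀ (i k : Fin l) (p : ℕ), 1 ≤ p → ∀ g ∈ W, polar i k p g ∈ W

/-- The polarization module `M_f`: the smallest such subspace. -/
noncomputable def polMod {l n : ℕ} (f : Rng l n) : Submodule ℂ (Rng l n) :=
  sInf {W | Admissible f W}

/-- The Hilbert series of `M_f` equals `∑_{|μ| ≤ D} a_μ h_μ(q)` with `a_μ ∈ ℕ`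
(compared coefficient by coefficient). -/
def HPositive {l n : ℕ} (f : Rng l n) (D : ℕ) : Prop :=
  ∃ a : (m : ℕ) → m.Partition → ℕ, ∀ d : Fin l →₀ ℕ,
    Module.finrank ℂ ↥(polMod f ⊓ Rd l n d) =
      coeff d (∑ m ∈ Finset.range (D + 1), ∑ μ : m.Partition, a m μ • hsymmPart (Fin l) ℕ μ)

/-- `(x₁ - x₂)(x₂ y₁ - x₁ y₂)`. -/
noncomputable def f0 : Rng 2 2 :=
  (X (0, 0) - X (0, 1)) * (X (0, 1) * X (1, 0) - X (0, 0) * X (1, 1))

noncomputable def g0 : Rng 2 2 :=
  (X (1, 0) - X (1, 1)) * (X (0, 1) * X (1, 0) - X (0, 0) * X (1, 1))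

noncomputable def d21 : Fin 2 →₀ ℕ := Finsupp.single 0 2 + Finsupp.single 1 1
noncomputable def d12 : Fin 2 →₀ ℕ := Finsupp.single 0 1 + Finsupp.single 1 2
noncomputable def d30 : Fin 2 →₀ ℕ := Finsupp.single 0 3

/-! ### The symmetric-function side -/

theorem hsymm_hom (k : ℕ) : (hsymm (Fin 2) ℕ k).IsHomogeneous k := by
  unfold hsymm
  apply IsHomogeneous.sum
  rintro ⟨s, hs⟩ -
  subst hs
  change ((s.map X).prod : MvPolynomial (Fin 2) ℕ).IsHomogeneous s.card
  induction s using Multiset.induction_on with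
  | empty => simpa using isHomogeneous_one (Fin 2) ℕ
  | cons a s ih =>
    rw [Multiset.map_cons, Multiset.prod_cons, Multiset.card_cons, add_comm]
    exact (isHomogeneous_X ℕ a).mul ih

theorem prod_hom (s : Multiset ℕ) :
    ((s.map (hsymm (Fin 2) ℕ)).prod).IsHomogeneous s.sum := by
  induction s using Multiset.induction_on with
  | empty => simpa using isHomogeneous_one (Fin 2) ℕ
  | cons a s ih =>
    rw [Multiset.map_cons, Multiset.prod_cons, Multiset.sum_cons]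
    exact (hsymm_hom a).mul ih

theorem hsymm_pos (k : ℕ) : 1 ≤ coeff (Finsupp.single 0 k) (hsymm (Fin 2) ℕ k) := by
  unfold hsymm
  rw [coeff_sum]
  refine le_trans ?_ (Finset.single_le_sum (fun _ _ => Nat.zero_le _)
    (Finset.mem_univ (Sym.replicate k (0 : Fin 2))))
  change 1 ≤ coeff (Finsupp.single 0 k) ((Multiset.replicate k (0 : Fin 2)).map X).prod
  rw [Multiset.map_replicate, Multiset.prod_replicate, X_pow_eq_monomial]
  simp

theorem prod_pos (s : Multiset ℕ) :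
    1 ≤ coeff (Finsupp.single 0 s.sum) ((s.map (hsymm (Fin 2) ℕ)).prod) := by
  induction s using Multiset.induction_on with
  | empty => simp
  | cons a s ih =>
    rw [Multiset.map_cons, Multiset.prod_cons, Multiset.sum_cons, coeff_mul]
    refine le_trans ?_ (Finset.single_le_sum (fun _ _ => Nat.zero_le _)
      (a := (Finsupp.single 0 a, Finsupp.single 0 s.sum)) ?_)
    · exact Nat.mul_le_mul (hsymm_pos a) ih
    · rw [Finset.HasAntidiagonal.mem_antidiagonal, Finsupp.single_add]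

theorem h_side (D : ℕ) (a : (m : ℕ) → m.Partition → ℕ)
    (h : coeff d30 (∑ m ∈ Finset.range (D + 1), ∑ μ : m.Partition,
      a m μ • hsymmPart (Fin 2) ℕ μ) = 0) :
    coeff d21 (∑ m ∈ Finset.range (D + 1), ∑ μ : m.Partition,
      a m μ • hsymmPart (Fin 2) ℕ μ) = 0 := by
  simp only [coeff_sum, coeff_smul, smul_eq_mul, Finset.sum_eq_zero_iff] at h ⊢
  intro m hm μ hμ
  by_cases h3 : m = 3
  · subst h3
    have h1 := h 3 hm μ hμ
    have h2 := prod_pos μ.parts
    rw [μ.parts_sum] at h2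
    rcases Nat.mul_eq_zero.1 h1 with h4 | h4
    · simp [h4]
    · exfalso
      unfold hsymmPart d30 at h4
      omega
  · have h2 := prod_hom μ.parts
    rw [μ.parts_sum] at h2
    have : coeff d21 (hsymmPart (Fin 2) ℕ μ) = 0 := by
      apply h2.coeff_eq_zero
      have : d21.degree = 3 := by simp [d21]
      omega
    simp [this]

/-! ### An invariant subspace -/

/-- Polynomials of degree `< k`. -/
def Dlt (k : ℕ) : Submodule ℂ (Rng 2 2) where
  carrier := {p | ∀ a : Fin 2 × Fin 2 →₀ ℕ, k ≤ a.degree → coeff a p = 0}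
  add_mem' := by
    intro p q hp hq a ha
    rw [coeff_add, hp a ha, hq a ha, add_zero]
  zero_mem' := fun _ _ => rfl
  smul_mem' := by
    intro c p hp a ha
    rw [coeff_smul, hp a ha, smul_zero]

theorem Dlt_mono {k m : ℕ} (h : k ≤ m) {p : Rng 2 2} (hp : p ∈ Dlt k) : p ∈ Dlt m :=
  fun a ha => hp a (h.trans ha)

theorem Dlt_pderiv {k : ℕ} {p : Rng 2 2} (hp : p ∈ Dlt (k + 1)) (v : Fin 2 × Fin 2) :
    pderiv v p ∈ Dlt k := by
  intro a ha
  rw [coeff_pderiv, hp _ (by simp; omega), zero_mul]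

theorem Dlt_X {k : ℕ} {p : Rng 2 2} (hp : p ∈ Dlt k) (v : Fin 2 × Fin 2) :
    X v * p ∈ Dlt (k + 1) := by
  intro a ha
  rw [coeff_X_mul']
  split_ifs with h
  · apply hp
    have h1 : Finsupp.single v 1 ≤ a := by
      rw [Finsupp.single_le_iff]
      exact Nat.one_le_iff_ne_zero.2 (Finsupp.mem_support_iff.1 h)
    have h2 : a = (a - Finsupp.single v 1) + Finsupp.single v 1 := (tsub_add_cancel_of_le h1).symm
    have h3 := congrArg Finsupp.degree h2
    rw [map_add, Finsupp.degree_single] at h3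
    omega
  · rfl

theorem Dlt_iter {k : ℕ} (v : Fin 2 × Fin 2) (p : ℕ) {q : Rng 2 2} (hq : q ∈ Dlt k) :
    (fun q : Rng 2 2 => pderiv v q)^[p] q ∈ Dlt k := by
  induction p generalizing q with
  | zero => exact hq
  | succ p ih =>
    rw [Function.iterate_succ_apply]
    exact ih (Dlt_pderiv (Dlt_mono (Nat.le_succ k) hq) v)

theorem hom_Dlt {p : Rng 2 2} (hp : p.IsHomogeneous 3) : p ∈ Dlt 4 := by
  intro a ha
  apply hp.coeff_eq_zero
  omega

theorem f0_hom : f0.IsHomogeneous 3 :=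
  ((isHomogeneous_X ℂ _).sub (isHomogeneous_X ℂ _)).mul
    (((isHomogeneous_X ℂ _).mul (isHomogeneous_X ℂ _)).sub
      ((isHomogeneous_X ℂ _).mul (isHomogeneous_X ℂ _)))

theorem g0_hom : g0.IsHomogeneous 3 :=
  ((isHomogeneous_X ℂ _).sub (isHomogeneous_X ℂ _)).mul
    (((isHomogeneous_X ℂ _).mul (isHomogeneous_X ℂ _)).sub
      ((isHomogeneous_X ℂ _).mul (isHomogeneous_X ℂ _)))

theorem X_mem (i j : Fin 2) : (X (i, j) : Rng 2 2) ∈ Rd 2 2 (Finsupp.single i 1) :=
  isWeightedHomogeneous_X ℂ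
    (fun v : Fin 2 × Fin 2 => (Finsupp.single v.1 1 : Fin 2 →₀ ℕ)) (i, j)

theorem mul_mem {p q : Rng 2 2} {d e : Fin 2 →₀ ℕ} (hp : p ∈ Rd 2 2 d) (hq : q ∈ Rd 2 2 e) :
    p * q ∈ Rd 2 2 (d + e) := IsWeightedHomogeneous.mul hp hq

theorem det_mem : (X (0, 1) * X (1, 0) - X (0, 0) * X (1, 1) : Rng 2 2) ∈
    Rd 2 2 (Finsupp.single 0 1 + Finsupp.single 1 1) :=
  Submodule.sub_mem _ (mul_mem (X_mem 0 1) (X_mem 1 0)) (mul_mem (X_mem 0 0) (X_mem 1 1))

theorem f0_mem : f0 ∈ Rd 2 2 d21 := by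
  have := mul_mem (Submodule.sub_mem _ (X_mem 0 0) (X_mem 0 1)) det_mem
  have e : d21 = Finsupp.single 0 1 + (Finsupp.single 0 1 + Finsupp.single 1 1) := by
    ext i
    fin_cases i <;> simp [d21]
  rw [e]
  exact this

theorem g0_mem : g0 ∈ Rd 2 2 d12 := by
  have := mul_mem (Submodule.sub_mem _ (X_mem 1 0) (X_mem 1 1)) det_mem
  have e : d12 = Finsupp.single 1 1 + (Finsupp.single 0 1 + Finsupp.single 1 1) := by
    ext i
    fin_cases i <;> simp [d12]
  rw [e]
  exact this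

theorem f0_sym (σ : Equiv.Perm (Fin 2)) : act σ f0 = f0 := by
  have h : (σ 0 = 0 ∧ σ 1 = 1) ∨ (σ 0 = 1 ∧ σ 1 = 0) := by
    revert σ
    decide
  unfold act f0
  rcases h with ⟨h0, h1⟩ | ⟨h0, h1⟩
  · simp [h0, h1]
  · simp only [map_mul, map_sub, rename_X, h0, h1]
    ring

theorem f0_ne : f0 ≠ 0 := by
  intro h
  have := congrArg (eval fun v : Fin 2 × Fin 2 => if v.1 = v.2 then (1 : ℂ) else 0) h
  simp [f0] at this

noncomputable def W0 : Submodule ℂ (Rng 2 2) := Submodule.span ℂ {f0, g0} ⊔ Dlt 3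

theorem polar_add (i k : Fin 2) (p q : Rng 2 2) :
    polar i k 1 (p + q) = polar i k 1 p + polar i k 1 q := by
  simp [polar, mul_add, Finset.sum_add_distrib]

theorem polar_smul (i k : Fin 2) (c : ℂ) (p : Rng 2 2) :
    polar i k 1 (c • p) = c • polar i k 1 p := by
  simp [polar]

theorem polar_fg (i k : Fin 2) : polar i k 1 f0 ∈ Submodule.span ℂ {f0, g0} ∧
    polar i k 1 g0 ∈ Submodule.span ℂ {f0, g0} := by
  simp only [Submodule.mem_span_pair]
  fin_cases i <;> fin_cases k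
  · refine ⟨⟨2, 0, ?_⟩, ⟨0, 1, ?_⟩⟩ <;>
    · simp [polar, f0, g0, Fin.sum_univ_two, pderiv_X, Pi.single_apply, smul_eq_C_mul, map_ofNat]
      ring
  · refine ⟨⟨0, 0, ?_⟩, ⟨1, 0, ?_⟩⟩ <;>
    · simp [polar, f0, g0, Fin.sum_univ_two, pderiv_X, Pi.single_apply]
      ring
  · refine ⟨⟨0, 1, ?_⟩, ⟨0, 0, ?_⟩⟩ <;>
    · simp [polar, f0, g0, Fin.sum_univ_two, pderiv_X, Pi.single_apply]
      ring
  · refine ⟨⟨1, 0, ?_⟩, ⟨0, 2, ?_⟩⟩ <;>
    · simp [polar, f0, g0, Fin.sum_univ_two, pderiv_X, Pi.single_apply, smul_eq_C_mul, map_ofNat]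
      ring

theorem W0_le : W0 ≤ Dlt 4 := by
  refine sup_le ?_ fun p hp => Dlt_mono (by omega) hp
  rw [Submodule.span_le]
  rintro p (rfl | rfl)
  · exact hom_Dlt f0_hom
  · exact hom_Dlt g0_hom

theorem W0_adm : Admissible f0 W0 := by
  have hf : f0 ∈ W0 := Submodule.mem_sup_left (Submodule.subset_span (by simp))
  refine ⟨hf, fun σ => by rw [f0_sym]; exact hf, fun v g hg =>
    Submodule.mem_sup_right (Dlt_pderiv (W0_le hg) v), ?_⟩
  intro i k p hp g hg
  rcases Nat.lt_or_ge p 2 with h | h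
  · have : p = 1 := by omega
    subst this
    obtain ⟨s, hs, r, hr, rfl⟩ := Submodule.mem_sup.1 hg
    obtain ⟨a, b, rfl⟩ := Submodule.mem_span_pair.1 hs
    rw [polar_add, polar_add, polar_smul, polar_smul]
    refine Submodule.add_mem _ (Submodule.mem_sup_left (Submodule.add_mem _
      (Submodule.smul_mem _ _ (polar_fg i k).1) (Submodule.smul_mem _ _ (polar_fg i k).2)))
      (Submodule.mem_sup_right ?_)
    exact Submodule.sum_mem _ fun j _ => Dlt_X (Dlt_pderiv hr _) _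
  · obtain ⟨p, rfl⟩ := Nat.exists_eq_add_of_le' h
    refine Submodule.mem_sup_right (Submodule.sum_mem _ fun j _ => Dlt_X ?_ _)
    rw [Function.iterate_succ_apply, Function.iterate_succ_apply]
    exact Dlt_iter _ _ (Dlt_pderiv (Dlt_pderiv (W0_le hg) _) _)

theorem deg_eq (a : Fin 2 × Fin 2 →₀ ℕ) :
    (Finsupp.weight (fun v : Fin 2 × Fin 2 => (Finsupp.single v.1 1 : Fin 2 →₀ ℕ)) a).degree
      = a.degree := by
  induction a using Finsupp.induction_linear with
  | zero => simp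
  | add a b ha hb => rw [map_add, map_add, map_add, ha, hb]
  | single v m => simp [Finsupp.weight_single]

theorem top_part {w : Rng 2 2} (hw : w ∈ polMod f0) {d : Fin 2 →₀ ℕ} (hd : d.degree = 3)
    (hd' : d ≠ d12) (hwd : w ∈ Rd 2 2 d) :
    ∃ c : ℂ, ∀ a, Finsupp.weight (fun v : Fin 2 × Fin 2 => (Finsupp.single v.1 1 : Fin 2 →₀ ℕ)) a
      = d → coeff a w = c * coeff a f0 := by
  have hw' : w ∈ W0 := (sInf_le (s := {W | Admissible f0 W}) W0_adm) hw
  obtain ⟨s, hs, r, hr, rfl⟩ := Submodule.mem_sup.1 hw'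
  obtain ⟨a, b, rfl⟩ := Submodule.mem_span_pair.1 hs
  refine ⟨a, fun e he => ?_⟩
  have h1 : coeff e r = 0 := hr e (by rw [← deg_eq, he, hd])
  have h2 : coeff e g0 = 0 := IsWeightedHomogeneous.coeff_eq_zero g0_mem e (by rw [he]; exact hd')
  simp [h1, h2]

theorem bot30 : polMod f0 ⊓ Rd 2 2 d30 = ⊥ := by
  rw [eq_bot_iff]
  rintro w ⟨hw, hwd⟩
  have hne : d30 ≠ d12 := fun h => by simpa [d30, d12] using congrArg (· 0) h
  have hne' : d30 ≠ d21 := fun h => by simpa [d30, d21] using congrArg (· 0) h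
  obtain ⟨c, hc⟩ := top_part hw (by simp [d30]) hne hwd
  rw [Submodule.mem_bot]
  ext e
  by_cases he : Finsupp.weight
    (fun v : Fin 2 × Fin 2 => (Finsupp.single v.1 1 : Fin 2 →₀ ℕ)) e = d30
  · rw [hc e he, IsWeightedHomogeneous.coeff_eq_zero f0_mem e (by rw [he]; exact hne')]
    simp
  · exact IsWeightedHomogeneous.coeff_eq_zero hwd e he

theorem span21 : polMod f0 ⊓ Rd 2 2 d21 = Submodule.span ℂ {f0} := by
  apply le_antisymm
  · rintro w ⟨hw, hwd⟩
    have hne : d21 ≠ d12 := fun h => by simpa [d21, d12] using congrArg (· 0) h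
    obtain ⟨c, hc⟩ := top_part hw (by simp [d21]) hne hwd
    refine Submodule.mem_span_singleton.2 ⟨c, ?_⟩
    ext e
    by_cases he : Finsupp.weight
      (fun v : Fin 2 × Fin 2 => (Finsupp.single v.1 1 : Fin 2 →₀ ℕ)) e = d21
    · rw [hc e he]
      simp
    · rw [IsWeightedHomogeneous.coeff_eq_zero hwd e he, coeff_smul,
        IsWeightedHomogeneous.coeff_eq_zero f0_mem e he, smul_zero]
  · rw [Submodule.span_le]
    rintro _ rfl
    exact ⟨Submodule.mem_sInf.2 fun W hW => hW.1, f0_mem⟩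

/-- With `ℓ = n = 2`, the nonzero homogeneous diagonally symmetric polynomial
`(x₁ - x₂)(x₂ y₁ - x₁ y₂)` has a polarization module whose Hilbert series is not `h`-positive. -/
theorem result : ∃ (l n : ℕ) (d : Fin l →₀ ℕ) (f : Rng l n), 1 ≤ l ∧ 1 ≤ n ∧ f ≠ 0 ∧
    f ∈ Rd l n d ∧ (∀ σ : Equiv.Perm (Fin n), act σ f = f) ∧ ∀ D : ℕ, ¬ HPositive f D := by
  refine ⟨2, 2, d21, f0, by omega, by omega, f0_ne, f0_mem, f0_sym, ?_⟩
  rintro D ⟨a, ha⟩
  have h30 := ha d30
  have h21 := ha d21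
  rw [bot30, finrank_bot] at h30
  rw [span21, finrank_span_singleton f0_ne, h_side D a h30.symm] at h21
  exact one_ne_zero h21

end Pool.Agent.Results.MP_55095a_co.No
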